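import Pool.Agent.TH105.N13.Fin
import Pool.Agent.TH793.UM.Pts
import Pool.Agent.TH552.BB.Common

/-! The expected dimension at `n` general points of one multiplicity in all degrees, all large `n`. -/

set_option autoImplicit false

namespace Pool.Agent.TH105.N13

open Finset Pool.Agent.TH176.Nag Pool.Agent.TH603.Sur Pool.Agent.H932R3 Pool.Agent.TH641.UM

/-- the matching lemma -/
theorem matchE : MatchHyp := by
  intro ι₁ ι₂ _ _ w₁ w₂ D d p q hD hpq h1 h2 h3 h4
  obtain ⟨A, p0, Q, W, V, hp0, hQ, hW, hV, hWp, hVq, c1, c2, c3, c4⟩ :=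
    Pool.Agent.TH552.BB.common w₁ w₂ D d p q h1 h2 h3 h4
  exact Pool.Agent.TH793.UM.match_of_points hD A p0 Q W V hp0 hQ hW hV (by omega) c1 c2 c3 c4

/-- **The expected dimension at `n` general points of one multiplicity, in all degrees, all
large `n`.** -/
theorem expDim_full :
    ∃ N0 : ℕ, ∀ n : ℕ, N0 ≤ n → ∀ m : ℕ, 1 ≤ m → ∀ {L : Type} [Field L] [CharZero L],
      ∃ F : MvPolynomial (Fin n × Fin 2) ℚ, F ≠ 0 ∧ ∀ (P : Fin n → Fin 2 → L),
        MvPolynomial.aeval (fun ij : Fin n × Fin 2 => P ij.1 ij.2) F ≠ 0 →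
        ∀ d : ℕ, ExpDim L (fun _ => m) P d :=
  expDim_all matchE

end Pool.Agent.TH105.N13
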